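import Mathlib
import Pool.Agent.Helper18.Peb.Conc

set_option autoImplicit false

/-!
PB-4: reaching along subdivided paths, and connectedness.
-/

namespace Pool.Agent.Helper65.PB

open Pool.Agent.Helper18.Peb

open Skel in
/-- along one path, forwards and backwards -/
theorem rch_pt {K E : Type} [DecidableEq K] [DecidableEq E] (X : Skel K E)
    (h2 : ∀ e, 2 ≤ X.len e) (e : E) (a b : ℕ) (hab : a ≤ b) (hb : b ≤ X.len e) :
    Rch X.G (b - a) (X.pt e a) (X.pt e b) ∧ Rch X.G (b - a) (X.pt e b) (X.pt e a) := by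
  induction b, hab using Nat.le_induction with
  | base => exact ⟨Rch.refl _ _, Rch.refl _ _⟩
  | succ n hn ih =>
    obtain ⟨i1, i2⟩ := ih (by omega)
    have h3 : X.G.Adj (X.pt e n) (X.pt e (n + 1)) := X.adj_pt h2 e n (by omega)
    have e1 : n + 1 - a = (n - a) + 1 := by omega
    have e2 : n + 1 - a = 1 + (n - a) := by omega
    refine ⟨?_, ?_⟩
    · rw [e1]; exact i1.trans (rch_adj h3)
    · rw [e2]; exact (rch_adj h3.symm).trans i2

/-- all points of a path are reachable from its source -/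
lemma reach_pt {K E : Type} (X : Skel K E)
    (h2 : ∀ e, 2 ≤ X.len e) (e : E) (b : ℕ) (hb : b ≤ X.len e) :
    X.G.Reachable (X.pt e b) (Sum.inl (X.src e)) := by
  induction b with
  | zero => rw [Skel.pt_zero]
  | succ n ih =>
    exact (X.adj_pt h2 e n (by omega)).symm.reachable.trans (ih (by omega))

lemma reach_tgt {K E : Type} (X : Skel K E)
    (h2 : ∀ e, 2 ≤ X.len e) (e : E) :
    X.G.Reachable (Sum.inl (X.tgt e)) (Sum.inl (X.src e)) := by
  have h := reach_pt X h2 e (X.len e) le_rfl
  rwa [Skel.pt_len X e (by have := h2 e; omega)] at h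

theorem connected_skel {p x d s t l : ℕ} (hp : 0 < p) (hx : 0 < x) (hd : 2 ≤ d) (hs : 2 ≤ s)
    (ht : 2 ≤ t) (hl : 2 ≤ l) : (skel p x d s t l).G.Connected := by
  have h2 : ∀ e, 2 ≤ (skel p x d s t l).len e := skel_two_le hd hs ht hl
  have hv : (skel p x d s t l).G.Reachable (Sum.inl .v) (Sum.inl .u) :=
    reach_tgt (skel p x d s t l) h2 .uv
  have hg : ∀ i, (skel p x d s t l).G.Reachable (Sum.inl (.g i)) (Sum.inl .u) := fun i =>
    (reach_tgt (skel p x d s t l) h2 (.gu i)).symm
  have hc : ∀ i, (skel p x d s t l).G.Reachable (Sum.inl (.c i)) (Sum.inl .u) := fun i =>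
    (reach_tgt (skel p x d s t l) h2 (.cv i)).symm.trans hv
  have hz : ∀ σ, (skel p x d s t l).G.Reachable (Sum.inl (.z σ)) (Sum.inl .u) := fun σ =>
    (reach_tgt (skel p x d s t l) h2 (.zg σ σ.1)).symm.trans (hg σ.1)
  have hy : ∀ σ, (skel p x d s t l).G.Reachable (Sum.inl (.y σ)) (Sum.inl .u) := fun σ =>
    (reach_tgt (skel p x d s t l) h2 (.tail σ)).symm.trans (hz σ)
  have hk : ∀ A : KV p x, (skel p x d s t l).G.Reachable (Sum.inl A) (Sum.inl .u) := by
    intro A
    cases A with
    | u => exact SimpleGraph.Reachable.refl _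
    | v => exact hv
    | g i => exact hg i
    | c i => exact hc i
    | z σ => exact hz σ
    | y σ => exact hy σ
  have hall : ∀ A : (skel p x d s t l).Vx,
      (skel p x d s t l).G.Reachable A (Sum.inl .u) := by
    intro A
    rcases A with A | ⟨e, k⟩
    · exact hk A
    · rw [Skel.inr_eq_pt]
      exact (reach_pt (skel p x d s t l) h2 e (k.1 + 1) (by have := k.2; omega)).trans (hk _)
  haveI : Nonempty (skel p x d s t l).Vx := ⟨Sum.inl .u⟩
  exact ⟨fun A B => (hall A).trans (hall B).symm⟩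

end Pool.Agent.Helper65.PB
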